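import Pool.Agent.W2helper59.CW.Stm

/-!
# Project CW, piece TILE
-/

set_option autoImplicit false

namespace Pool.Agent.W2helper19.CW

open Pool.Agent.W2helper59.CW MeasureTheory Set

/-- `k` intervals of length `m` inside `[1, m k]` which cover it tile it -/
theorem tile (m k : ℕ) (hm : 1 ≤ m) (S : Finset ℕ) (hS : S.card = k)
    (hcov : ∀ c, 1 ≤ c → c < m * k + 1 → ∃ i ∈ S, i < c ∧ c ≤ i + m)
    (hin : ∀ i ∈ S, i + (m + 1) ≤ m * k + 1) : S = Sk m k := by
  classical
  -- each point is covered exactly once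
  have hdc := Finset.sum_card_bipartiteAbove_eq_sum_card_bipartiteBelow
    (s := Finset.Icc 1 (m * k)) (t := S) (fun c i : ℕ => i < c ∧ c ≤ i + m)
  have h1 : ∀ i ∈ S, ((Finset.Icc 1 (m * k)).bipartiteBelow (fun c i : ℕ => i < c ∧ c ≤ i + m) i).card
      = m := by
    intro i hi
    have h2 := hin i hi
    have h3 : (Finset.Icc 1 (m * k)).bipartiteBelow (fun c i : ℕ => i < c ∧ c ≤ i + m) i
        = Finset.Ioc i (i + m) := by
      ext c
      simp only [Finset.bipartiteBelow, Finset.mem_filter, Finset.mem_Icc, Finset.mem_Ioc]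
      omega
    rw [h3, Nat.card_Ioc]
    omega
  rw [Finset.sum_congr rfl h1, Finset.sum_const, hS, smul_eq_mul] at hdc
  have h2 : ∀ c ∈ Finset.Icc 1 (m * k), 1 ≤ (S.bipartiteAbove (fun c i : ℕ => i < c ∧ c ≤ i + m) c).card := by
    intro c hc
    rw [Finset.mem_Icc] at hc
    obtain ⟨i, hi, hi2⟩ := hcov c hc.1 (by omega)
    exact Finset.card_pos.mpr ⟨i, by
      simp only [Finset.bipartiteAbove, Finset.mem_filter]; exact ⟨hi, hi2⟩⟩
  have h3 : ∀ c ∈ Finset.Icc 1 (m * k), 1 = (S.bipartiteAbove (fun c i : ℕ => i < c ∧ c ≤ i + m) c).card := by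
    apply (Finset.sum_eq_sum_iff_of_le h2).mp
    rw [hdc, Finset.sum_const, Nat.card_Icc, smul_eq_mul]
    ring_nf
    omega
  have huniq : ∀ c, 1 ≤ c → c ≤ m * k → ∀ i ∈ S, ∀ i' ∈ S, i < c → c ≤ i + m → i' < c → c ≤ i' + m →
      i = i' := by
    intro c hc1 hc2 i hi i' hi' a b a' b'
    have h4 := h3 c (Finset.mem_Icc.mpr ⟨hc1, hc2⟩)
    obtain ⟨z, hz⟩ := Finset.card_eq_one.mp h4.symm
    have h5 : i ∈ S.bipartiteAbove (fun c i : ℕ => i < c ∧ c ≤ i + m) c := by
      simp only [Finset.bipartiteAbove, Finset.mem_filter]; exact ⟨hi, a, b⟩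
    have h6 : i' ∈ S.bipartiteAbove (fun c i : ℕ => i < c ∧ c ≤ i + m) c := by
      simp only [Finset.bipartiteAbove, Finset.mem_filter]; exact ⟨hi', a', b'⟩
    rw [hz, Finset.mem_singleton] at h5 h6
    rw [h5, h6]
  have hmem : ∀ j, j < k → m * j ∈ S := by
    intro j
    induction j with
    | zero =>
      intro hj
      have h4 : m * 1 ≤ m * k := Nat.mul_le_mul_left m hj
      obtain ⟨i, hi, hi1, _⟩ := hcov 1 le_rfl (by omega)
      have : i = m * 0 := by omega
      rwa [this] at hi
    | succ j ih =>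
      intro hj
      have hjS := ih (by omega)
      have h4 : m * (j + 1 + 1) ≤ m * k := Nat.mul_le_mul_left m hj
      have h5 : m * (j + 1 + 1) = m * j + m + m := by ring
      have h6 : m * (j + 1) = m * j + m := by ring
      rw [h6]
      obtain ⟨i, hi, hi1, hi2⟩ := hcov (m * j + m + 1) (by omega) (by omega)
      by_cases h7 : i = m * j + m
      · rwa [h7] at hi
      · exfalso
        have := huniq (m * j + m) (by omega) (by omega) i hi (m * j) hjS (by omega) (by omega)
          (by omega) (by omega)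
        omega
  symm
  apply Finset.eq_of_subset_of_card_le
  · intro x hx
    simp only [Sk, Finset.mem_image, Finset.mem_range] at hx
    obtain ⟨j, hj, rfl⟩ := hx
    exact hmem j hj
  · rw [hS, Sk, Finset.card_image_of_injective _ (fun a b hab => Nat.eq_of_mul_eq_mul_left (by omega) hab),
      Finset.card_range]

theorem p_tile : P_TILE := by
  intro m p k hm
  unfold D
  refine Finset.sum_eq_single_of_mem (f := fun S => V p (m * k + 1) S) (Sk m k) ?_ ?_
  · refine (@Finset.mem_filter _ _ (_) _ _).mpr ⟨Finset.mem_powersetCard.mpr ⟨?_, ?_⟩, ?_⟩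
    · intro x hx
      simp only [Sk, Finset.mem_image, Finset.mem_range] at hx ⊢
      obtain ⟨j, hj, rfl⟩ := hx
      have : m * j ≤ m * k := Nat.mul_le_mul_left m hj.le
      omega
    · rw [Sk, Finset.card_image_of_injective _ (fun a b hab => Nat.eq_of_mul_eq_mul_left (by omega) hab),
        Finset.card_range]
    · intro c hc1 hc2
      refine ⟨m * ((c - 1) / m), ?_, ?_, ?_⟩
      · simp only [Sk, Finset.mem_image, Finset.mem_range]
        refine ⟨(c - 1) / m, ?_, rfl⟩
        rw [Nat.div_lt_iff_lt_mul (by omega)]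
        rw [mul_comm k m]
        omega
      · have := Nat.mul_div_le (c - 1) m
        omega
      · have := Nat.lt_mul_div_succ (c - 1) (show 0 < m by omega)
        have h2 : m * ((c - 1) / m + 1) = m * ((c - 1) / m) + m := by ring
        omega
  · intro S hS hne
    obtain ⟨hS1, hS2⟩ := (@Finset.mem_filter _ _ (_) _ _).mp hS
    by_contra hV
    apply hne
    apply tile m k hm S (Finset.mem_powersetCard.mp hS1).2 hS2
    intro i hi
    have hne' : ({u : Fin (m * k + 1) → ℝ | ∀ i ∈ S, Occ p u i}).Nonempty := by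
      rw [Set.nonempty_iff_ne_empty]
      intro h0
      apply hV
      show (mu (m * k + 1)).real _ = 0
      rw [h0]
      simp
    obtain ⟨u, hu⟩ := hne'
    exact (hu i hi).1

end Pool.Agent.W2helper19.CW
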